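import Pool.Agent.Lib.MP_688fd0_co.TE.H9.Res
import Pool.Agent.Lib.MP_688fd0_co.TF.Iface4

/-!
# Theorem F, module RESF, first part: the R-edges of one stage

Port of the module RES of Theorem E (`TE/H9/ResA.lean`, `TE/H9/ResB.lean`).
-/

namespace Pool.Agent.Lib.MP_688fd0_co.TF.H21

open Pool.Agent.Lib.MP_688fd0_co.TE
open Pool.Agent.Lib.MP_688fd0_co.TE.H9 (UM_ne WM_ne phi sum_edges Pr_ex_le xw_ne)

universe u v w

open Finset

variable {G : Type u} [Group G] [Fintype G] [DecidableEq G]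

theorem adm_mono (c : Ctx G) (τ par : Bool) {N N' : ℕ} (h : N ≤ N') {x y : G}
    (hx : c.adm τ par N x y) : c.adm τ par N' x y := by
  unfold Ctx.adm at *
  split at hx
  · rename_i hp
    obtain ⟨j, h1, h2, h3⟩ := hx
    rw [if_pos hp]
    exact ⟨j, h1, h2.trans h, h3⟩
  · rename_i hp
    obtain ⟨j, h1, h2, h3⟩ := hx
    rw [if_neg hp]
    exact ⟨j, h1, h2.trans h, h3⟩

theorem cF_ne {B C : Finset G} {τ : Bool} {p : ℕ} {x y : G} (h : cF B C τ p x y ≠ 0) :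
    x⁻¹ * y ∈ Lt B C τ := by
  unfold cF at h
  split at h
  · exact WM_ne h
  · have := UM_ne h
    unfold Lt
    cases τ
    · simpa using this
    · simp [this]

/-- The truncation constant. -/
noncomputable def lamc (c : Ctx G) (τ : Bool) (M : LM G G (3 * c.k + 1)) : ℝ :=
  c.X ^ 5 * lam0F τ 2 c.X M.H0

/-- Output of one stage. -/
structure SO (c : Ctx G) (N : ℕ) (τ : Bool) (W : G → Prop) where
  M : LM G G (3 * c.k + 1)
  ω : Fin c.T → Fld (3 * c.k + 1) G G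
  tc : G → G → Fin c.T
  res : c.IsRes τ (c.ζ τ) M
  pos : ∀ t j u e, val (ω t) j u = some e → e ∈ Lt c.B c.C τ
  low : ∀ x y, x ≠ y → c.adm τ true 9 x y → (3 / 4 : ℝ) * c.q τ ≤ M.Fm c.jr x y ∧
    M.Fm c.jr x y / 4 ≤ M.Zgm c.jr ω W (lamc c τ M) (tc x y) x y
  ld : ∀ t, M.LD c.jr c.X (c.q τ) (ω t) (fun _ => 1) 1
  ls : ∀ t, M.LS c.jr c.X (c.q τ) c.b1 (ω t)
  tw : ∀ M', c.TK N M' → ∀ y, ∑ t, M.tw (fun v => M' y v) (ω t) ≤ c.X * (2 * c.ζ τ)

theorem zeta_pos (c : Ctx G) (hX : (10 ^ 6 : ℝ) ≤ c.X) (τ : Bool) : 0 < c.ζ τ := by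
  have : 0 < c.X := by linarith [show (0 : ℝ) < 10 ^ 6 by norm_num]
  unfold Ctx.ζ
  split <;> positivity

theorem Pr_and_le {Ω : Type*} [Fintype Ω] {μ : Ω → ℝ} (hμ : ∀ ω, 0 ≤ μ ω) (A B : Ω → Prop) :
    Pr μ (fun ω => ¬ (A ω ∧ B ω)) ≤ Pr μ (fun ω => ¬ A ω) + Pr μ (fun ω => ¬ B ω) := by
  unfold Pr
  rw [← Finset.sum_add_distrib]
  refine Finset.sum_le_sum fun ω _ => ?_
  rw [← mul_add]
  refine mul_le_mul_of_nonneg_left ?_ (hμ ω)
  by_cases hA : A ω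
  · by_cases hB : B ω
    · rw [ind_not (fun h : ¬ (A ω ∧ B ω) => h ⟨hA, hB⟩)]
      exact add_nonneg (ind_nonneg _) (ind_nonneg _)
    · rw [ind_of hB]
      have h1 := ind_nonneg (¬ A ω)
      have h2 := ind_le_one (¬ (A ω ∧ B ω))
      linarith
  · rw [ind_of hA]
    have h1 := ind_nonneg (¬ B ω)
    have h2 := ind_le_one (¬ (A ω ∧ B ω))
    linarith

theorem exists_of_Pr {Ω : Type*} [Fintype Ω] {μ : Ω → ℝ} (hμ : IsPr μ) (A : Ω → Prop)
    (h : Pr μ (fun ω => ¬ A ω) < 1) : ∃ ω, A ω := by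
  by_contra hc
  push Not at hc
  have : Pr μ (fun ω => ¬ A ω) = 1 := by
    unfold Pr
    rw [← hμ.one]
    refine Finset.sum_congr rfl fun ω _ => ?_
    rw [ind_of (hc ω), mul_one]
  linarith

theorem card_two (c : Ctx G) (hnum : NUMF_S.{u}) : (2 : ℝ) ≤ Fintype.card G := by
  obtain ⟨n1, -, -, -, -, -, -, n8, n9, -⟩ := hnum G c
  have hX1 : 1 ≤ c.X := by linarith [show (1 : ℝ) < 10 ^ 6 by norm_num]
  have h1 : c.X ≤ c.X ^ 200000 := le_self_pow₀ hX1 (by norm_num)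
  linarith [show (2 : ℝ) < 10 ^ 6 by norm_num]

/-- One stage. -/
theorem stg (hnum : NUMF_S.{u}) (hpks : PKSF_S.{u}) (hresm : RESMF_S.{u}) (hpf : PFF_S.{u, u})
    (hstage : STAGEF_S.{u, u, u}) (hld : LDF_S.{u, u}) (hls : LSF_S.{u, u}) (hkp : KPF_S.{u})
    (hpi : PIPR_S.{0, u}) (hexx : EXX_S.{u, u}) (c : Ctx G) (N : ℕ) (hN : N ≤ 40) (τ : Bool)
    (W : G → Prop) (hW : c.Light 1 W (1 / c.X ^ 3)) : Nonempty (SO c N τ W) := by
  obtain ⟨n1, n2, n3, n4, n5, n6, n7, n8, n9, n10, n11, n12, n13, n14, n15, n16⟩ := hnum G c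
  obtain ⟨k1, k2, k3, k4, k5, k6, k7, k8, k9, k10, k11⟩ := hpks G c
  obtain ⟨M, hM, hNF⟩ := hresm G c τ
  have hX0 : 0 < c.X := by linarith [show (0 : ℝ) < 10 ^ 6 by norm_num]
  have hX1 : 1 ≤ c.X := by linarith [show (1 : ℝ) < 10 ^ 6 by norm_num]
  obtain ⟨m, f, hm, hf1, hf2⟩ := k11 N hN
  have hn2 : (2 : ℝ) ≤ Fintype.card G := card_two c hnum
  have hn1 : (1 : ℝ) ≤ Fintype.card G := by linarith
  have hz := zeta_pos c n1 τ
  have hph : ∀ x y, x ≠ y → c.adm τ true 9 x y → M.PF c.jr c.X (c.q τ) c.b1 W x y := by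
    intro x y hxy hadm
    exact hpf G c τ 2 G (3 * c.k + 1) M c.jr hM.inst W hW x y hxy
      (adm_mono c τ true (by norm_num) hadm)
  have hlaw : IsPr M.law := (hexx G G (3 * c.k + 1) M).1
  have hE : Pr M.law (fun ω => ¬ (M.LD c.jr c.X (c.q τ) ω (fun _ => 1) 1 ∧
      M.LS c.jr c.X (c.q τ) c.b1 ω)) ≤ 1 / (Fintype.card G : ℝ) ^ 10 := by
    refine (Pr_and_le hlaw.nn _ _).trans ?_
    have h1 := hld G c τ 2 G (3 * c.k + 1) M c.jr (fun _ => 1) 1 hM.inst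
      (fun _ => ⟨zero_le_one, le_rfl⟩)
      (by
        rw [div_le_one (by positivity)]
        exact one_le_pow₀ hX1)
      (by
        intro par j j' g v h1 h2 h3 h4
        have := (hkp G c τ par j j' g h2 h3 h4.le).2.2.2.1 v
        simpa using this)
    have h2 := hls G c τ 2 G (3 * c.k + 1) M c.jr hM.inst
    have h3 : 1 / (Fintype.card G : ℝ) ^ 14 ≤ 1 / 2 * (1 / (Fintype.card G : ℝ) ^ 10) := by
      rw [one_div_mul_one_div]
      refine one_div_le_one_div_of_le (by positivity) ?_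
      have h4 : (2 : ℝ) ≤ (Fintype.card G : ℝ) ^ 4 := hn2.trans (le_self_pow₀ hn1 (by norm_num))
      calc 2 * (Fintype.card G : ℝ) ^ 10 ≤ (Fintype.card G : ℝ) ^ 4 * (Fintype.card G : ℝ) ^ 10 :=
            mul_le_mul_of_nonneg_right h4 (by positivity)
        _ = (Fintype.card G : ℝ) ^ 14 := by ring
    linarith
  have hst := hstage G G (3 * c.k + 1) Unit (fun _ => M) c.jr c.X (c.q τ) c.b1
    (lam0F τ 2 c.X M.H0) c.T (fun _ => W) (fun _ x y => x ≠ y ∧ c.adm τ true 9 x y) ()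
    (fun _ ω => M.LD c.jr c.X (c.q τ) ω (fun _ => 1) 1 ∧ M.LS c.jr c.X (c.q τ) c.b1 ω)
    (fun _ => rfl) (by simpa using hn1) (fun _ => hNF) (fun _ x y h => hph x y h.1 h.2)
    (fun _ => hE) (Fin m × G) (fun i v => f i.1 i.2 v) (fun _ => 1)
    (by
      rw [Fintype.card_prod, Fintype.card_fin]
      push_cast
      calc (m : ℝ) * Fintype.card G ≤ (Fintype.card G : ℝ) ^ 150 * Fintype.card G :=
            mul_le_mul_of_nonneg_right hm (by linarith)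
        _ = (Fintype.card G : ℝ) ^ 151 := by ring
        _ ≤ (Fintype.card G : ℝ) ^ 200 := pow_le_pow_right₀ hn1 (by norm_num))
    (by
      intro i v
      refine ⟨(k5 N (f i.1) (hf1 i.1).1).nn _ _, ?_⟩
      refine ((hf1 i.1).2 _ _).trans ?_
      apply div_le_div_of_nonneg_right _ n10.le
      exact one_le_pow₀ hX1)
    (by
      intro i
      exact ⟨(k5 N (f i.1) (hf1 i.1).1).row _, le_rfl⟩)
    (by
      intro _
      rw [hM.pt]
      unfold Ctx.ζ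
      have h3 : 1 / c.X ^ 4000 ≤ 1 / c.X ^ 3000 :=
        one_div_le_one_div_of_le (by positivity) (pow_le_pow_right₀ hX1 (by norm_num))
      have h4 : 1 / c.X ^ 4000 ≤ 1 / c.X ^ 400 :=
        one_div_le_one_div_of_le (by positivity) (pow_le_pow_right₀ hX1 (by norm_num))
      have h5 : 0 < 1 / c.X ^ 3000 := by positivity
      have h6 : 0 < 1 / c.X ^ 400 := by positivity
      split <;> linarith)
  obtain ⟨ω, hω⟩ := exists_of_Pr (hpi.1 (Fin c.T) _ _ (fun _ => hlaw)) _ (lt_of_le_of_lt hst (by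
    rw [div_lt_one (by positivity)]
    calc (1 : ℝ) < 2 := by norm_num
      _ ≤ Fintype.card G := hn2
      _ ≤ (Fintype.card G : ℝ) ^ 2 := le_self_pow₀ hn1 (by norm_num)))
  classical
  refine ⟨⟨M, ω, fun x y => if h : x ≠ y ∧ c.adm τ true 9 x y then (hω.low () x y h).choose
    else ⟨0, c.hT1⟩, hM, ?_, ?_, fun t => (hω.ev () t).1, fun t => (hω.ev () t).2, ?_⟩⟩
  · intro t j u e he
    have h1 := hω.pos () t j u e he
    rw [hM.P] at h1
    have h2 := right_ne_zero_of_mul h1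
    simpa using WM_ne h2
  · intro x y hxy hadm
    refine ⟨(hph x y hxy hadm).f0, ?_⟩
    rw [dif_pos ⟨hxy, hadm⟩]
    exact (hω.low () x y ⟨hxy, hadm⟩).choose_spec
  · intro M' hM' y
    obtain ⟨i, rfl⟩ := hf2 M' hM'
    have := hω.tw (i, y) ()
    simp only [hM.pt, mul_one] at this
    exact this

/-- R-edges. -/
def SO.RE {c : Ctx G} {N : ℕ} {τ : Bool} {W : G → Prop} (S : SO c N τ W) (e : G × G) : Prop :=
  ∃ (t : Fin c.T) (j : ℕ), val (S.ω t) j e.1 = some (e.1⁻¹ * e.2) ∧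
    ∀ w, (w = e.1 ∨ w = e.2) → ¬ W w ∧ (∀ t' < t, ¬ S.M.tch (S.ω t') w) ∧
      ∀ j' u s, val (S.ω t) j' u = some s → (u = w ∨ u * s = w) →
        j' = j ∧ u = e.1 ∧ s = e.1⁻¹ * e.2

theorem SO.re_lett {c : Ctx G} {N : ℕ} {τ : Bool} {W : G → Prop} (S : SO c N τ W) {e : G × G}
    (h : S.RE e) : e.1⁻¹ * e.2 ∈ Lt c.B c.C τ := by
  obtain ⟨t, j, h1, _⟩ := h
  exact S.pos t j _ _ h1

theorem SO.re_tch {c : Ctx G} {N : ℕ} {τ : Bool} {W : G → Prop} (S : SO c N τ W) {e : G × G}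
    (h : S.RE e) {w : G} (hw : w = e.1 ∨ w = e.2) : ∃ t, S.M.tch (S.ω t) w := by
  obtain ⟨t, j, h1, _⟩ := h
  refine ⟨t, j, e.1, _, h1, ?_⟩
  rcases hw with rfl | rfl
  · exact Or.inl rfl
  · right; rw [S.res.ex]; simp

theorem SO.re_W {c : Ctx G} {N : ℕ} {τ : Bool} {W : G → Prop} (S : SO c N τ W) {e : G × G}
    (h : S.RE e) {w : G} (hw : w = e.1 ∨ w = e.2) : ¬ W w := by
  obtain ⟨t, j, h1, h2⟩ := h
  exact (h2 w hw).1

theorem SO.re_disj {c : Ctx G} {N : ℕ} {τ : Bool} {W : G → Prop} (S : SO c N τ W) {e e' : G × G}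
    (h : S.RE e) (h' : S.RE e') {w : G} (hw : w = e.1 ∨ w = e.2) (hw' : w = e'.1 ∨ w = e'.2) :
    e = e' := by
  obtain ⟨t, j, h1, h2⟩ := h
  obtain ⟨t', j', h1', h2'⟩ := h'
  have q1 : e.1 = w ∨ e.1 * (e.1⁻¹ * e.2) = w := by
    rcases hw with rfl | rfl
    · exact Or.inl rfl
    · right; simp
  have q2 : e'.1 = w ∨ e'.1 * (e'.1⁻¹ * e'.2) = w := by
    rcases hw' with rfl | rfl
    · exact Or.inl rfl
    · right; simp
  rcases lt_trichotomy t t' with hlt | heq | hgt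
  · exfalso
    apply (h2' w hw').2.1 t hlt
    refine ⟨j, e.1, _, h1, ?_⟩
    rw [S.res.ex]
    exact q1
  · subst heq
    obtain ⟨r1, r2, r3⟩ := (h2' w hw').2.2 j e.1 _ h1 q1
    rw [r2] at r3
    exact Prod.ext r2 (mul_left_cancel r3)
  · exfalso
    apply (h2 w hw).2.1 t' hgt
    refine ⟨j', e'.1, _, h1', ?_⟩
    rw [S.res.ex]
    exact q2

open scoped Classical in
/-- The set of R-edges. -/
noncomputable def SO.E {c : Ctx G} {N : ℕ} {τ : Bool} {W : G → Prop} (S : SO c N τ W) :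
    Finset (G × G) := Finset.univ.filter S.RE

theorem SO.mem_E {c : Ctx G} {N : ℕ} {τ : Bool} {W : G → Prop} (S : SO c N τ W) (e : G × G) :
    e ∈ S.E ↔ S.RE e := by
  classical
  simp [SO.E]

theorem SO.light {c : Ctx G} {N : ℕ} {τ : Bool} {W : G → Prop} (S : SO c N τ W)
    (h : G → ℝ) (hh : ∀ v, 0 ≤ h v) :
    ∑ e ∈ S.E, (h e.1 + h e.2) ≤ ∑ t, S.M.tw h (S.ω t) := by
  classical
  unfold LM.tw
  simp only [S.res.ex]
  have key : ∀ e ∈ S.E, (h e.1 + h e.2) ≤ ∑ t, ∑ j, ind (S.ω t j e.1 = some (e.1⁻¹ * e.2)) *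
      (h e.1 + h e.2) := by
    intro e he
    rw [S.mem_E] at he
    obtain ⟨t, j, h1, _⟩ := he
    unfold Pool.Agent.Lib.MP_688fd0_co.TE.val at h1
    split at h1
    · rename_i hj
      have hnn : ∀ t j, 0 ≤ ind (S.ω t j e.1 = some (e.1⁻¹ * e.2)) * (h e.1 + h e.2) :=
        fun t j => mul_nonneg (ind_nonneg _) (add_nonneg (hh _) (hh _))
      calc (h e.1 + h e.2) = ind (S.ω t ⟨j, hj⟩ e.1 = some (e.1⁻¹ * e.2)) * (h e.1 + h e.2) := by
            rw [ind_of h1, one_mul]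
        _ ≤ ∑ j, ind (S.ω t j e.1 = some (e.1⁻¹ * e.2)) * (h e.1 + h e.2) :=
            Finset.single_le_sum (f := fun j => ind (S.ω t j e.1 = some (e.1⁻¹ * e.2)) *
              (h e.1 + h e.2)) (fun j _ => hnn t j) (Finset.mem_univ _)
        _ ≤ _ := Finset.single_le_sum (f := fun t => ∑ j, ind (S.ω t j e.1 = some (e.1⁻¹ * e.2)) *
              (h e.1 + h e.2)) (fun t _ => Finset.sum_nonneg (fun j _ => hnn t j))
              (Finset.mem_univ _)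
    · exact absurd h1 (by simp)
  refine (Finset.sum_le_sum key).trans ?_
  have h2 : ∑ e ∈ S.E, ∑ t, ∑ j, ind (S.ω t j e.1 = some (e.1⁻¹ * e.2)) * (h e.1 + h e.2) ≤
      ∑ e : G × G, ∑ t, ∑ j, ind (S.ω t j e.1 = some (e.1⁻¹ * e.2)) * (h e.1 + h e.2) := by
    apply Finset.sum_le_sum_of_subset_of_nonneg (Finset.subset_univ _)
    intro e _ _
    exact Finset.sum_nonneg fun t _ => Finset.sum_nonneg fun j _ =>
      mul_nonneg (ind_nonneg _) (add_nonneg (hh _) (hh _))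
  refine h2.trans (le_of_eq ?_)
  rw [Finset.sum_comm]
  refine Finset.sum_congr rfl fun t _ => ?_
  rw [Finset.sum_comm]
  refine Finset.sum_congr rfl fun j _ => ?_
  rw [Fintype.sum_prod_type]
  refine Finset.sum_congr rfl fun u _ => ?_
  refine Fintype.sum_equiv (Equiv.mulLeft u⁻¹) _ _ fun x => ?_
  simp

end Pool.Agent.Lib.MP_688fd0_co.TF.H21
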